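import Pool.Agent.H200M.Stm3
import Pool.Agent.Q195.PK.MainC

/-! # Project MC (helper200): MC15, the main theorem for cores (`S_CoreT`) -/

set_option autoImplicit false

namespace Pool.Agent.Q150.MC

open Finset Pool.Agent.H200P Pool.Agent.H932R3 Pool.Agent.H200M Pool.Agent.H200G Pool.Agent.H200C
open Pool.Agent.Q195.PK (remove_points expDim_mono two_choose)

/-- the statement of MC14 for a given constant -/
def SP (ε c : ℝ) : Prop := ∀ {n d T : ℕ} {μ : ℝ} (w : Fin n → ℕ)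
  (A : Finset (Fin n)), 1 ≤ T → (∀ t : ℕ, 1 ≤ t → t ≤ T → WinAb (256 * t) (A.val.map w) d) →
  (T : ℝ) ^ 2 ≤ XA w A d → (∀ i ∉ A, (w i : ℝ) ≤ c * T) → Few w (univ \ A) μ (c * XA w A d) →
  ∑ i ∈ (univ \ A).filter (fun i => c * μ < (w i : ℝ)), (w i : ℝ) ^ 2 ≤ (1 - ε) * XA w A d →
  GenExp d w

lemma few_mono {n : ℕ} {w : Fin n → ℕ} {S : Finset (Fin n)} {μ v v' : ℝ} (h : Few w S μ v)
    (hv : v ≤ v') : Few w S μ v' := by
  rcases h with h | ⟨h1, h2⟩
  · exact Or.inl h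
  · exact Or.inr ⟨h1, h2.trans hv⟩

lemma few_mu {n : ℕ} {w : Fin n → ℕ} {S : Finset (Fin n)} {μ μ' v : ℝ} (h : Few w S μ v)
    (h0 : 0 ≤ μ') (hμ : μ' ≤ μ) : Few w S μ' v := by
  rcases h with h | ⟨h1, h2⟩
  · exact Or.inl fun i hi h1 h2 => h i hi h1 (h2.trans hμ)
  · refine Or.inr ⟨h0, le_trans ?_ h2⟩
    have h3 : ((S.filter fun i => (w i : ℝ) ≤ μ').image w).card ≤
        ((S.filter fun i => (w i : ℝ) ≤ μ).image w).card := by
      apply card_le_card
      apply image_subset_image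
      intro i hi
      rw [mem_filter] at hi ⊢
      exact ⟨hi.1, hi.2.trans hμ⟩
    have h4 : ((((S.filter fun i => (w i : ℝ) ≤ μ').image w).card : ℕ) : ℝ) ≤
        (((S.filter fun i => (w i : ℝ) ≤ μ).image w).card : ℕ) := by exact_mod_cast h3
    exact mul_le_mul (by linarith) (pow_le_pow_left₀ h0 hμ 2) (by positivity) (by positivity)

lemma SP_mono {ε ε' c c' : ℝ} (h : SP ε c) (hε : ε ≤ ε') (hc : c' ≤ c) (hc' : 0 < c') :
    SP ε' c' := by
  intro n d T μ w A hT hW hX hw hF hs K _ _ P hP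
  have hX0 : 0 ≤ XA w A d := le_trans (by positivity) hX
  refine h (μ := μ) w A hT hW hX (fun i hi => (hw i hi).trans
    (mul_le_mul_of_nonneg_right hc (Nat.cast_nonneg _)))
    (few_mono hF (mul_le_mul_of_nonneg_right hc hX0)) ?_ hP
  refine le_trans (sum_le_sum_of_subset_of_nonneg ?_ fun i _ _ => by positivity) (hs.trans
    (mul_le_mul_of_nonneg_right (by linarith) hX0))
  intro i hi
  rw [mem_filter] at hi ⊢
  refine ⟨hi.1, ?_⟩
  rcases le_or_gt 0 μ with h0 | h0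
  · exact lt_of_le_of_lt (mul_le_mul_of_nonneg_right hc h0) hi.2
  · exact lt_of_lt_of_le (mul_neg_of_pos_of_neg hc' h0) (Nat.cast_nonneg _)

lemma few_zero {n : ℕ} {w w' : Fin n → ℕ} {S : Finset (Fin n)} {μ v : ℝ} (h : Few w S μ v)
    (hw : ∀ i ∈ S, w' i = w i ∨ w' i = 0)
    (hz : ∀ i ∈ S, ∀ j ∈ S, w' i ≠ 0 → (w' i : ℝ) ≤ μ → w j = w i → w' j = w j) :
    Few w' S μ (2 * v) := by
  rcases h with h | ⟨h1, h2⟩
  · left
    intro i hi hi0 him
    have e : w' i = w i := (hw i hi).resolve_right hi0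
    have h3 := h i hi (by rw [← e]; exact hi0) (by rw [← e]; exact him)
    refine h3.trans (card_le_card ?_)
    intro j hj
    rw [mem_filter] at hj ⊢
    refine ⟨hj.1, ?_⟩
    rw [hz i hi j hj.1 hi0 him hj.2, e]
    exact hj.2
  · right
    refine ⟨h1, ?_⟩
    have h3 : ((S.filter fun i => (w' i : ℝ) ≤ μ).image w').card ≤
        ((S.filter fun i => (w i : ℝ) ≤ μ).image w).card + 1 := by
      have hsub : (S.filter fun i => (w' i : ℝ) ≤ μ).image w' ⊆
          insert 0 ((S.filter fun i => (w i : ℝ) ≤ μ).image w) := by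
        intro x hx
        rw [mem_image] at hx
        obtain ⟨i, hi, rfl⟩ := hx
        rw [mem_filter] at hi
        rw [mem_insert]
        rcases hw i hi.1 with e | e
        · right
          rw [mem_image]
          refine ⟨i, ?_, e.symm⟩
          rw [mem_filter]
          refine ⟨hi.1, ?_⟩
          rw [← e]
          exact hi.2
        · exact Or.inl e
      exact (card_le_card hsub).trans (card_insert_le _ _)
    have h4 : ((((S.filter fun i => (w' i : ℝ) ≤ μ).image w').card : ℕ) : ℝ) ≤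
        ((((S.filter fun i => (w i : ℝ) ≤ μ).image w).card : ℕ) : ℝ) + 1 := by exact_mod_cast h3
    have h5 : (0 : ℝ) ≤ ((((S.filter fun i => (w i : ℝ) ≤ μ).image w).card : ℕ) : ℝ) :=
      Nat.cast_nonneg _
    have h6 : (0 : ℝ) ≤ μ ^ 2 := sq_nonneg _
    have h7 := mul_le_mul_of_nonneg_right (by linarith :
      ((((S.filter fun i => (w' i : ℝ) ≤ μ).image w').card : ℕ) : ℝ) + 1 ≤
      2 * (((((S.filter fun i => (w i : ℝ) ≤ μ).image w).card : ℕ) : ℝ) + 1)) h6
    linarith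

lemma XA_congr {n : ℕ} {w w' : Fin n → ℕ} {A : Finset (Fin n)} (h : ∀ i ∈ A, w' i = w i) (d : ℕ) :
    XA w' A d = XA w A d := by
  unfold XA
  congr 1
  exact sum_congr rfl fun i hi => by rw [h i hi]

lemma map_congr' {n : ℕ} {w w' : Fin n → ℕ} {A : Finset (Fin n)} (h : ∀ i ∈ A, w' i = w i) :
    A.val.map w' = A.val.map w :=
  Multiset.map_congr rfl fun i hi => h i (mem_val.mp hi)

/-- a system with no solutions for smaller multiplicities -/
lemma fin_low {n d : ℕ} {w w' : Fin n → ℕ} {A : Finset (Fin n)} (hA : ∀ i ∈ A, w' i = w i)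
    (hw : ∀ i, w' i ≤ w i) {K : Type} [Field K] {P : Fin n → Fin 2 → K} (hG : ExpDim K w' P d)
    (hX : XA w A d ≤ ∑ i ∈ univ \ A, (w' i : ℝ) ^ 2) : ExpDim K w P d := by
  apply expDim_mono hw P d hG
  have hreal : ((2 * (d + 2).choose 2 : ℕ) : ℝ) ≤ ((2 * ∑ i, (w' i + 1).choose 2 : ℕ) : ℝ) := by
    have e1 : ((2 * (d + 2).choose 2 : ℕ) : ℝ) = ((d : ℝ) + 1) * (d + 2) := by
      have := two_choose (d + 1)
      rw [show d + 1 + 1 = d + 2 by ring] at this
      rw [this]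
      push_cast
      ring
    have e2 : ((2 * ∑ i, (w' i + 1).choose 2 : ℕ) : ℝ) = ∑ i, (w' i : ℝ) * (w' i + 1) := by
      rw [Finset.mul_sum, Nat.cast_sum]
      exact sum_congr rfl fun i _ => two_choose (w' i)
    rw [e1, e2, ← sum_sdiff (subset_univ A)]
    have e3 : ∑ i ∈ univ \ A, (w' i : ℝ) ^ 2 ≤ ∑ i ∈ univ \ A, (w' i : ℝ) * (w' i + 1) := by
      refine sum_le_sum fun i _ => ?_
      have : (0 : ℝ) ≤ w' i := Nat.cast_nonneg _
      nlinarith
    have e4 : ∑ i ∈ A, (w' i : ℝ) * (w' i + 1) = ∑ i ∈ A, (w i : ℝ) * (w i + 1) :=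
      sum_congr rfl fun i hi => by rw [hA i hi]
    rw [e4]
    unfold XA at hX
    linarith
  have hnat : 2 * (d + 2).choose 2 ≤ 2 * ∑ i, (w' i + 1).choose 2 := by exact_mod_cast hreal
  omega

/-- **MC15** -/
theorem coreT : S_CoreT := by
  intro hS ε hε
  obtain ⟨δ, hδ⟩ : ∃ δ : ℝ, δ = min ε 1 := ⟨_, rfl⟩
  have hδ0 : 0 < δ := by rw [hδ]; exact lt_min hε one_pos
  have hδ1 : δ ≤ 1 := by rw [hδ]; exact min_le_right _ _
  have hδε : δ ≤ ε := by rw [hδ]; exact min_le_left _ _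
  obtain ⟨c0, hc0, hmain⟩ := hS (δ / 4) (by positivity)
  have hSP0 : SP (δ / 4) c0 := @hmain
  obtain ⟨c', hc'⟩ : ∃ c' : ℝ, c' = min c0 (min (1 / 4) (δ / 8)) := ⟨_, rfl⟩
  have hc'0 : 0 < c' := by
    rw [hc']
    exact lt_min hc0 (lt_min (by norm_num) (by positivity))
  have hc'c0 : c' ≤ c0 := by rw [hc']; exact min_le_left _ _
  have hc'4 : c' ≤ 1 / 4 := by rw [hc']; exact (min_le_right _ _).trans (min_le_left _ _)
  have hc'δ : c' ≤ δ / 8 := by rw [hc']; exact (min_le_right _ _).trans (min_le_right _ _)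
  have hSP1 : SP (δ / 4) c' := SP_mono hSP0 le_rfl hc'c0 hc'0
  have hcc' : c' ^ 2 ≤ c' / 4 := by nlinarith
  have hc2pos : 0 < c' ^ 2 := by positivity
  refine ⟨c' ^ 2, hc2pos, ?_⟩
  intro n d T μ w A hT hW hX hw hF hcase K _ _ P hP
  have hTR : (1 : ℝ) ≤ T := by exact_mod_cast hT
  have hX1 : 1 ≤ XA w A d := le_trans (one_le_pow₀ hTR) hX
  rcases hcase with h | h
  · exact (SP_mono hSP1 (by linarith : δ / 4 ≤ ε) (by linarith) hc2pos) w A hT hW hX hw hF h hP
  rcases lt_or_ge μ 0 with hμneg | hμ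
  · exfalso
    have h1 : (univ \ A).filter (fun i => (w i : ℝ) ≤ c' ^ 2 * μ) = ∅ := by
      rw [filter_eq_empty_iff]
      intro i _ hi
      have : c' ^ 2 * μ < 0 := mul_neg_of_pos_of_neg hc2pos hμneg
      have h2 : (0 : ℝ) ≤ w i := Nat.cast_nonneg _
      linarith
    rw [h1, sum_empty] at h
    have : 0 < ε * XA w A d := mul_pos hε (by linarith)
    linarith
  -- the smaller threshold
  obtain ⟨μ', hμ'⟩ : ∃ μ' : ℝ, μ' = c' * μ := ⟨_, rfl⟩
  have hμ'0 : 0 ≤ μ' := by rw [hμ']; positivity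
  have hμ'μ : μ' ≤ μ := by rw [hμ']; nlinarith
  have hcμ : c' ^ 2 * μ = c' * μ' := by rw [hμ']; ring
  rw [hcμ] at h
  have hwc' : ∀ i ∉ A, (w i : ℝ) ≤ c' * T := fun i hi => (hw i hi).trans
    (mul_le_mul_of_nonneg_right (by linarith) (by linarith))
  have hF2 : Few w (univ \ A) μ' (c' ^ 2 * XA w A d) := few_mu hF hμ'0 hμ'μ
  have hcX : c' ^ 2 * XA w A d ≤ c' * XA w A d :=
    mul_le_mul_of_nonneg_right (by linarith) (by linarith)
  have hcX2 : 2 * (c' ^ 2 * XA w A d) ≤ c' * XA w A d := by nlinarith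
  by_cases hbig : ∑ i ∈ (univ \ A).filter (fun i => c' * μ' < (w i : ℝ)), (w i : ℝ) ^ 2 ≤
      (1 - δ / 4) * XA w A d
  · exact hSP1 w A hT hW hX hwc' (few_mono hF2 hcX) hbig hP
  push Not at hbig
  -- the general step
  have hgen : ∀ (Z : Finset (Fin n)) (μ1 : ℝ), Z ⊆ (univ \ A).filter (fun i => μ' < (w i : ℝ)) →
      (μ1 = μ' ∨ (μ1 = μ ∧ Z = (univ \ A).filter (fun i => μ' < (w i : ℝ)))) →
      ∑ i ∈ ((univ \ A) \ Z).filter (fun i => c' * μ1 < (w i : ℝ)), (w i : ℝ) ^ 2 ≤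
        (1 - δ / 4) * XA w A d →
      XA w A d ≤ ∑ i ∈ (univ \ A) \ Z, (w i : ℝ) ^ 2 → ExpDim K w P d := by
    intro Z μ1 hZ hμ1 hsum hlow
    have hμ10 : 0 ≤ μ1 := by
      rcases hμ1 with h1 | ⟨h1, -⟩
      · rw [h1]; exact hμ'0
      · rw [h1]; exact hμ
    obtain ⟨w', hw'⟩ : ∃ w' : Fin n → ℕ, w' = fun i => if i ∈ Z then 0 else w i := ⟨_, rfl⟩
    have hin : ∀ i ∈ Z, w' i = 0 := fun i hi => by rw [hw']; exact if_pos hi
    have hout : ∀ i, i ∉ Z → w' i = w i := fun i hi => by rw [hw']; exact if_neg hi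
    have hZA : ∀ i ∈ A, i ∉ Z := fun i hi hiZ => by
      have := (mem_filter.mp (hZ hiZ)).1
      rw [mem_sdiff] at this
      exact this.2 hi
    have hA' : ∀ i ∈ A, w' i = w i := fun i hi => hout i (hZA i hi)
    have hle : ∀ i, w' i ≤ w i := by
      intro i
      by_cases hi : i ∈ Z
      · rw [hin i hi]; exact Nat.zero_le _
      · rw [hout i hi]
    have hler : ∀ i, (w' i : ℝ) ≤ w i := fun i => by exact_mod_cast hle i
    have hXX : XA w' A d = XA w A d := XA_congr hA' d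
    have hF1 : Few w (univ \ A) μ1 (c' ^ 2 * XA w A d) := by
      rcases hμ1 with h1 | ⟨h1, -⟩
      · rw [h1]; exact hF2
      · rw [h1]; exact hF
    have hFw : Few w' (univ \ A) μ1 (2 * (c' ^ 2 * XA w A d)) := by
      refine few_zero hF1 (fun i _ => ?_) ?_
      · by_cases hi : i ∈ Z
        · exact Or.inr (hin i hi)
        · exact Or.inl (hout i hi)
      · intro i hi j hj hi0 him hji
        have hiZ : i ∉ Z := fun hiZ => hi0 (hin i hiZ)
        apply hout
        intro hjZ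
        have h3 := (mem_filter.mp (hZ hjZ)).2
        rw [hji] at h3
        rcases hμ1 with h1 | ⟨-, h1⟩
        · rw [hout i hiZ, h1] at him
          linarith
        · apply hiZ
          rw [h1, mem_filter]
          exact ⟨hi, h3⟩
    have hsumeq : ∀ (p : ℝ → Prop) [DecidablePred p], (∀ x, p x → x ≠ 0) →
        ∑ i ∈ (univ \ A).filter (fun i => p (w' i : ℝ)), (w' i : ℝ) ^ 2 =
        ∑ i ∈ ((univ \ A) \ Z).filter (fun i => p (w i : ℝ)), (w i : ℝ) ^ 2 := by
      intro p _ hp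
      have e : (univ \ A).filter (fun i => p (w' i : ℝ)) =
          ((univ \ A) \ Z).filter (fun i => p (w i : ℝ)) := by
        ext i
        rw [mem_filter, mem_filter, mem_sdiff (s := univ \ A)]
        constructor
        · rintro ⟨h1, h2⟩
          have hiZ : i ∉ Z := by
            intro hiZ
            rw [hin i hiZ] at h2
            exact hp _ h2 Nat.cast_zero
          rw [hout i hiZ] at h2
          exact ⟨⟨h1, hiZ⟩, h2⟩
        · rintro ⟨⟨h1, hiZ⟩, h2⟩
          rw [hout i hiZ]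
          exact ⟨h1, h2⟩
      rw [e]
      refine sum_congr rfl fun i hi => ?_
      rw [hout i (mem_sdiff.mp (mem_filter.mp hi).1).2]
    have hGw : ExpDim K w' P d := by
      refine hSP1 (μ := μ1) w' A hT ?_ ?_ (fun i hi => (hler i).trans (hwc' i hi)) ?_ ?_ hP
      · intro t ht1 ht2
        rw [map_congr' hA']
        exact hW t ht1 ht2
      · rw [hXX]; exact hX
      · rw [hXX]
        exact few_mono hFw hcX2
      · rw [hXX, hsumeq (fun x => c' * μ1 < x) (fun x hx h0 => by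
          rw [h0] at hx
          have : 0 ≤ c' * μ1 := by positivity
          linarith)]
        exact hsum
    apply fin_low hA' hle hGw
    refine hlow.trans ?_
    have e : ∑ i ∈ (univ \ A) \ Z, (w i : ℝ) ^ 2 = ∑ i ∈ (univ \ A) \ Z, (w' i : ℝ) ^ 2 :=
      sum_congr rfl fun i hi => by rw [hout i (mem_sdiff.mp hi).2]
    rw [e]
    exact sum_le_sum_of_subset_of_nonneg sdiff_subset fun i _ _ => by positivity
  -- the sums
  by_cases hb : XA w A d ≤ ∑ i ∈ (univ \ A) \ ((univ \ A).filter (fun i => μ' < (w i : ℝ))),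
      (w i : ℝ) ^ 2
  · refine hgen _ μ (Subset.refl _) (Or.inr ⟨rfl, rfl⟩) ?_ hb
    have e : (((univ \ A) \ ((univ \ A).filter (fun i => μ' < (w i : ℝ)))).filter
        (fun i => c' * μ < (w i : ℝ))) = ∅ := by
      rw [filter_eq_empty_iff]
      intro i hi hi2
      rw [mem_sdiff, mem_filter] at hi
      apply hi.2
      refine ⟨hi.1, ?_⟩
      rw [hμ']
      exact hi2
    rw [e, sum_empty]
    have : 0 ≤ 1 - δ / 4 := by linarith
    positivity
  push Not at hb
  obtain ⟨Hi, hHi⟩ : ∃ Hi : Finset (Fin n), Hi = (univ \ A).filter (fun i => μ' < (w i : ℝ)) := ⟨_, rfl⟩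
  obtain ⟨Lo, hLo⟩ : ∃ Lo : Finset (Fin n), Lo = (univ \ A).filter (fun i => (w i : ℝ) ≤ c' * μ') :=
    ⟨_, rfl⟩
  obtain ⟨Md, hMd⟩ : ∃ Md : Finset (Fin n), Md = (univ \ A).filter
      (fun i => c' * μ' < (w i : ℝ) ∧ (w i : ℝ) ≤ μ') := ⟨_, rfl⟩
  have hc'μ' : c' * μ' ≤ μ' := by nlinarith
  have hLM : Disjoint Lo Md := by
    rw [disjoint_left, hLo, hMd]
    intro i hi hi2
    rw [mem_filter] at hi hi2
    linarith [hi.2, hi2.2.1]
  have hLH : Disjoint Lo Hi := by
    rw [disjoint_left, hLo, hHi]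
    intro i hi hi2
    rw [mem_filter] at hi hi2
    linarith [hi.2, hi2.2]
  have hMH : Disjoint Md Hi := by
    rw [disjoint_left, hMd, hHi]
    intro i hi hi2
    rw [mem_filter] at hi hi2
    linarith [hi.2.2, hi2.2]
  have eLM : (univ \ A) \ Hi = Lo ∪ Md := by
    ext i
    rw [hHi, hLo, hMd, mem_sdiff, mem_union, mem_filter, mem_filter, mem_filter]
    constructor
    · rintro ⟨h1, h2⟩
      rcases le_or_gt (w i : ℝ) (c' * μ') with h3 | h3
      · exact Or.inl ⟨h1, h3⟩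
      · refine Or.inr ⟨h1, h3, ?_⟩
        by_contra h4
        push Not at h4
        exact h2 ⟨h1, h4⟩
    · rintro (⟨h1, h2⟩ | ⟨h1, h2, h3⟩)
      · exact ⟨h1, fun h3 => by linarith [h3.2]⟩
      · exact ⟨h1, fun h4 => by linarith [h4.2]⟩
  have eMH : (univ \ A).filter (fun i => c' * μ' < (w i : ℝ)) = Md ∪ Hi := by
    ext i
    rw [hHi, hMd, mem_union, mem_filter, mem_filter, mem_filter]
    constructor
    · rintro ⟨h1, h2⟩
      rcases le_or_gt (w i : ℝ) μ' with h3 | h3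
      · exact Or.inl ⟨h1, h2, h3⟩
      · exact Or.inr ⟨h1, h3⟩
    · rintro (⟨h1, h2, h3⟩ | ⟨h1, h2⟩)
      · exact ⟨h1, h2⟩
      · exact ⟨h1, by linarith⟩
  rw [← hHi, eLM, sum_union hLM] at hb
  rw [eMH, sum_union hMH] at hbig
  rw [← hLo] at h
  have hδX : δ * XA w A d ≤ ε * XA w A d := mul_le_mul_of_nonneg_right hδε (by linarith)
  have hδX0 : 0 < δ * XA w A d := mul_pos hδ0 (by linarith)
  -- remove points
  obtain ⟨S', hS'1, hS'2, hS'3⟩ := remove_points (fun i => if i ∈ A then 0 else (w i : ℝ) ^ 2)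
    ((c' ^ 2 * T) ^ 2) ((1 - δ / 4) * XA w A d - ∑ i ∈ Md, (w i : ℝ) ^ 2) (by linarith) (by
      intro i
      by_cases hi : i ∈ A
      · simp only [hi, if_true]
        positivity
      · simp only [hi, if_false]
        exact pow_le_pow_left₀ (Nat.cast_nonneg _) (hw i hi) 2) Hi (by
      have e : ∑ i ∈ Hi, (if i ∈ A then 0 else (w i : ℝ) ^ 2) = ∑ i ∈ Hi, (w i : ℝ) ^ 2 := by
        refine sum_congr rfl fun i hi => ?_
        rw [hHi, mem_filter, mem_sdiff] at hi
        rw [if_neg hi.1.2]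
      rw [e]
      have : 0 ≤ (c' ^ 2 * (T : ℝ)) ^ 2 := by positivity
      linarith)
  have e : ∑ i ∈ S', (if i ∈ A then 0 else (w i : ℝ) ^ 2) = ∑ i ∈ S', (w i : ℝ) ^ 2 := by
    refine sum_congr rfl fun i hi => ?_
    have hi' := hS'1 hi
    rw [hHi, mem_filter, mem_sdiff] at hi'
    rw [if_neg hi'.1.2]
  rw [e] at hS'2 hS'3
  have hZ : Hi \ S' ⊆ (univ \ A).filter (fun i => μ' < (w i : ℝ)) := by
    rw [← hHi]
    exact sdiff_subset
  have eAll : (univ \ A) \ (Hi \ S') = (Lo ∪ Md) ∪ S' := by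
    rw [← eLM]
    ext i
    constructor
    · intro h0
      obtain ⟨h1, h2⟩ := mem_sdiff.1 h0
      by_cases h3 : i ∈ S'
      · exact mem_union_right _ h3
      · exact mem_union_left _ (mem_sdiff.2 ⟨h1, fun h4 => h2 (mem_sdiff.2 ⟨h4, h3⟩)⟩)
    · intro h0
      rcases mem_union.1 h0 with h1 | h1
      · obtain ⟨h2, h3⟩ := mem_sdiff.1 h1
        exact mem_sdiff.2 ⟨h2, fun h4 => h3 (mem_sdiff.1 h4).1⟩
      · have h2 := hS'1 h1
        rw [hHi, mem_filter] at h2
        exact mem_sdiff.2 ⟨h2.1, fun h3 => (mem_sdiff.1 h3).2 h1⟩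
  have hdis2 : Disjoint (Lo ∪ Md) S' := by
    rw [disjoint_union_left]
    exact ⟨disjoint_of_subset_right hS'1 hLH, disjoint_of_subset_right hS'1 hMH⟩
  refine hgen (Hi \ S') μ' hZ (Or.inl rfl) ?_ ?_
  · have hsub : (((univ \ A) \ (Hi \ S')).filter (fun i => c' * μ' < (w i : ℝ))) ⊆ Md ∪ S' := by
      intro i hi
      rw [eAll, mem_filter, mem_union, mem_union] at hi
      rw [mem_union]
      rcases hi with ⟨(h1 | h1) | h1, h2⟩
      · exfalso
        rw [hLo, mem_filter] at h1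
        linarith [h1.2]
      · exact Or.inl h1
      · exact Or.inr h1
    refine (sum_le_sum_of_subset_of_nonneg hsub fun i _ _ => by positivity).trans ?_
    rw [sum_union (disjoint_of_subset_right hS'1 hMH)]
    linarith
  · rw [eAll, sum_union hdis2, sum_union hLM]
    have h1 : (c' ^ 2 * (T : ℝ)) ^ 2 ≤ δ / 8 * XA w A d := by
      rw [mul_pow]
      have h2 : (c' ^ 2) ^ 2 ≤ δ / 8 := by nlinarith
      exact mul_le_mul h2 hX (by positivity) (by positivity)
    nlinarith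

end Pool.Agent.Q150.MC
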